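import Mathlib

namespace Pool.Agent.Results.MP_540c93_co.NoFinite

/-- independent dominating set -/
def IndDom {V : Type} (G : SimpleGraph V) (S : Set V) : Prop :=
  G.IsIndepSet S ∧ ∀ v, v ∉ S → ∃ u ∈ S, G.Adj u v

/-- `i`-set: independent dominating set of minimum size -/
def ISet {V : Type} (G : SimpleGraph V) (S : Set V) : Prop :=
  IndDom G S ∧ ∀ T, IndDom G T → S.ncard ≤ T.ncard

/-- the `i`-graph of `G` -/
def iGraph {V : Type} (G : SimpleGraph V) : SimpleGraph {S : Set V // ISet G S} :=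
  SimpleGraph.fromRel fun X Y => ∃ u ∈ X.1, ∃ v, v ∉ X.1 ∧ G.Adj u v ∧ Y.1 = insert v (X.1 \ {u})

/-- `H` is isomorphic to the `i`-graph of a finite graph -/
def IsIGraph {W : Type} (H : SimpleGraph W) : Prop :=
  ∃ (V : Type) (_ : Finite V) (G : SimpleGraph V), Nonempty (H ≃g iGraph G)

lemma adj_iff {V : Type} (G : SimpleGraph V) (X Y : {S : Set V // ISet G S}) :
    (iGraph G).Adj X Y ↔ ∃ u ∈ X.1, ∃ v, v ∉ X.1 ∧ G.Adj u v ∧ Y.1 = insert v (X.1 \ {u}) := by
  rw [iGraph, SimpleGraph.fromRel_adj]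
  constructor
  · rintro ⟨-, h | ⟨u, hu, v, hv, ha, e⟩⟩
    · exact h
    · refine ⟨v, by simp [e], u, by simp [e, ha.ne], ha.symm, ?_⟩
      ext z
      simp only [e, Set.mem_insert_iff, Set.mem_sdiff, Set.mem_singleton_iff]
      by_cases h1 : z = u <;> by_cases h2 : z = v <;> simp_all
  · rintro ⟨u, hu, v, hv, ha, e⟩
    refine ⟨fun h => hv ?_, Or.inl ⟨u, hu, v, hv, ha, e⟩⟩
    rw [h, e]; simp

lemma square {V : Type} (G : SimpleGraph V) (X Y Z W : {S : Set V // ISet G S}) (u : V)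
    (h1 : (iGraph G).Adj X Y) (h2 : (iGraph G).Adj Y Z) (h3 : (iGraph G).Adj X W)
    (hXZ : X ≠ Z) (hYW : Y ≠ W) (hn : ¬ (iGraph G).Adj Y W) (huX : u ∈ X.1) (huY : u ∉ Y.1) :
    u ∈ W.1 ∧ u ∉ Z.1 := by
  rw [adj_iff] at h1 h2 h3 hn
  obtain ⟨u', -, v, hv, huv, eY⟩ := h1
  obtain rfl : u = u' := by by_contra h; exact huY (by simp [eY, huX, h])
  constructor
  · by_contra huW
    obtain ⟨p, hp, q, hq, hpq, eW⟩ := h3
    obtain rfl : u = p := by by_contra h; exact huW (by simp [eW, huX, h])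
    have hqv : q ≠ v := fun h => hYW (Subtype.ext (by rw [eY, eW, h]))
    have hqY : q ∉ Y.1 := by simp [eY, hqv, hq]
    obtain ⟨s, hs, hsq⟩ := Y.2.1.2 q hqY
    have hsv : s = v := by
      by_contra h
      have : s ∈ W.1 := by
        rw [eY] at hs; rw [eW]
        exact Or.inr (hs.resolve_left h)
      exact W.2.1.1 this (by simp [eW]) hsq.ne hsq
    subst hsv
    refine hn ⟨s, hs, q, hqY, hsq, ?_⟩
    rw [eW, eY]
    ext z
    simp only [Set.mem_insert_iff, Set.mem_sdiff, Set.mem_singleton_iff]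
    by_cases h1 : z = s <;> simp_all
  · intro huZ
    obtain ⟨a, ha, b, hb, hab, eZ⟩ := h2
    have hvZ : v ∉ Z.1 := fun h => Z.2.1.1 huZ h huv.ne huv
    obtain rfl : v = a := by by_contra h; exact hvZ (by simp [eZ, eY, h])
    obtain rfl : u = b := by by_contra h; exact huY (by rw [eZ] at huZ; exact (huZ.resolve_left h).1)
    apply hXZ
    apply Subtype.ext
    rw [eZ, eY]
    ext z
    simp only [Set.mem_insert_iff, Set.mem_sdiff, Set.mem_singleton_iff]
    by_cases h1 : z = u <;> by_cases h2 : z = v <;> simp_all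

/-- Moebius ladder -/
def Mob (k : ℕ) : SimpleGraph (Fin (2 * k)) :=
  SimpleGraph.fromRel fun x y => y.1 = x.1 + 1 ∨ y.1 = x.1 + k ∨ (y.1 = 0 ∧ x.1 + 1 = 2 * k)

lemma mob_adj (k : ℕ) (x y : Fin (2 * k)) : (Mob k).Adj x y ↔ x.1 ≠ y.1 ∧
    ((y.1 = x.1 + 1 ∨ y.1 = x.1 + k ∨ (y.1 = 0 ∧ x.1 + 1 = 2 * k)) ∨
      (x.1 = y.1 + 1 ∨ x.1 = y.1 + k ∨ (x.1 = 0 ∧ y.1 + 1 = 2 * k))) := by
  rw [Mob, SimpleGraph.fromRel_adj, Ne, Fin.ext_iff]

lemma mob_not (k : ℕ) (hk : 3 ≤ k) : ¬ IsIGraph (Mob k) := by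
  rintro ⟨V, _, G, ⟨e⟩⟩
  have A : ∀ x y, (iGraph G).Adj (e x) (e y) ↔ (Mob k).Adj x y := fun x y => e.map_adj_iff
  have N : ∀ x y : Fin (2 * k), x.1 ≠ y.1 → e x ≠ e y := fun x y h h' =>
    h (congrArg Fin.val (e.injective h'))
  obtain ⟨u, hu, v, hv, huv, eY⟩ := (adj_iff G _ _).1
    ((A ⟨0, by omega⟩ ⟨k, by omega⟩).2 (by rw [mob_adj]; simp; omega))
  have h0 : u ∉ (e ⟨k, by omega⟩).1 := by simp [eY, huv.ne]
  have key : ∀ i (hi : i < k), u ∈ (e ⟨i, by omega⟩).1 ∧ u ∉ (e ⟨i + k, by omega⟩).1 := by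
    intro i
    induction i with
    | zero => intro _; exact ⟨hu, by simpa using h0⟩
    | succ i ih =>
      intro hi
      refine square G (e ⟨i, by omega⟩) (e ⟨i + k, by omega⟩) (e ⟨i + 1 + k, by omega⟩)
        (e ⟨i + 1, by omega⟩) u ?_ ?_ ?_ ?_ ?_ ?_
        (ih (by omega)).1 (ih (by omega)).2
      all_goals first | (apply N; dsimp only; omega) | (rw [A, mob_adj]; dsimp only; omega)
  have := square G (e ⟨k - 1, by omega⟩) (e ⟨k - 1 + k, by omega⟩) (e ⟨0, by omega⟩)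
    (e ⟨k, by omega⟩) u (by rw [A, mob_adj]; dsimp only; omega) (by rw [A, mob_adj]; dsimp only; omega)
    (by rw [A, mob_adj]; dsimp only; omega) (by apply N; dsimp only; omega)
    (by apply N; dsimp only; omega) (by rw [A, mob_adj]; dsimp only; omega)
    (key _ (by omega)).1 (key _ (by omega)).2
  exact this.2 hu

/-- perfect matching -/
def PM (ι : Type) : SimpleGraph (ι × Bool) := SimpleGraph.fromRel fun x y => x.1 = y.1

def gr {ι : Type} (f : ι → Bool) : Set (ι × Bool) := {x | x.2 = f x.1}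

lemma pm_adj {ι : Type} (x y : ι × Bool) : (PM ι).Adj x y ↔ x.1 = y.1 ∧ x.2 ≠ y.2 := by
  obtain ⟨a, b⟩ := x
  obtain ⟨c, d⟩ := y
  simp only [PM, SimpleGraph.fromRel_adj, ne_eq, Prod.mk.injEq]
  constructor
  · rintro ⟨h, rfl | rfl⟩ <;> simpa using h
  · rintro ⟨rfl, h⟩; simp [h]

lemma gr_iset {ι : Type} [Finite ι] (f : ι → Bool) : ISet (PM ι) (gr f) := by
  refine ⟨⟨?_, ?_⟩, ?_⟩
  · rintro x hx y hy - h
    rw [pm_adj] at h
    exact h.2 (by rw [hx, hy, h.1])
  · intro v hv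
    exact ⟨(v.1, f v.1), rfl, (pm_adj _ _).2 ⟨rfl, fun h => hv h.symm⟩⟩
  · intro T hT
    have h1 : ∀ i, ∃ b, (i, b) ∈ T := by
      intro i
      by_cases h : (i, true) ∈ T
      · exact ⟨_, h⟩
      · obtain ⟨u, hu, ha⟩ := hT.2 _ h
        rw [pm_adj] at ha
        exact ⟨u.2, by rw [← show u.1 = i from ha.1]; exact hu⟩
    choose g hg using h1
    refine Set.ncard_le_ncard_of_injOn (fun x => (x.1, g x.1)) (fun x _ => hg _) ?_
    intro x hx y hy h
    have h1 : x.1 = y.1 := (Prod.mk.inj h).1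
    exact Prod.ext h1 (by rw [hx, hy, h1])

lemma gr_adj {ι : Type} [Finite ι] (f g : ι → Bool) :
    (iGraph (PM ι)).Adj ⟨gr f, gr_iset f⟩ ⟨gr g, gr_iset g⟩ ↔
      ∃ i, f i ≠ g i ∧ ∀ j, j ≠ i → f j = g j := by
  rw [adj_iff]
  constructor
  · rintro ⟨u, hu, v, hv, ha, e⟩
    rw [pm_adj] at ha
    have h1 : v ∈ gr g := by simp only at e; rw [e]; simp
    refine ⟨v.1, fun h => hv (by change v.2 = _; rw [h]; exact h1), fun j hj => ?_⟩
    have : (j, f j) ∈ gr g := by
      simp only at e; rw [e]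
      exact Or.inr ⟨rfl, fun h => hj (by rw [← ha.1, ← show (j, f j) = u from h])⟩
    exact this
  · rintro ⟨i, h1, h2⟩
    refine ⟨(i, f i), rfl, (i, g i), fun h => h1 (Eq.symm h), (pm_adj _ _).2 ⟨rfl, h1⟩, ?_⟩
    ext ⟨j, b⟩
    simp only [gr, Set.mem_ofPred_eq, Set.mem_insert_iff, Prod.mk.injEq, Set.mem_sdiff,
      Set.mem_singleton_iff]
    by_cases hj : j = i
    · subst hj; simp
    · simp [hj, h2 j hj]

def lad (k p : ℕ) (s : Bool) : Option (Fin k) → Bool
  | none => s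
  | some j => decide (j.1 < p)

lemma lad_adj (k p q : ℕ) (hp : p < k) (hq : q < k) (s t : Bool) :
    (∃ i, lad k p s i ≠ lad k q t i ∧ ∀ j, j ≠ i → lad k p s j = lad k q t j) ↔
      (p = q ∧ s ≠ t) ∨ (s = t ∧ (p = q + 1 ∨ q = p + 1)) := by
  constructor
  · rintro ⟨_ | i, h1, h2⟩
    · left
      refine ⟨?_, h1⟩
      have a := h2 (some ⟨p, hp⟩) (by simp)
      have b := h2 (some ⟨q, hq⟩) (by simp)
      simp [lad] at a b; omega
    · right
      refine ⟨h2 none (by simp), ?_⟩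
      have h3 : ∀ j (hj : j < k), j ≠ i.1 → (j < p ↔ j < q) := fun j hj hne => by
        simpa [lad] using h2 (some ⟨j, hj⟩) (by simpa [Fin.ext_iff] using hne)
      have h4 : ¬ (i.1 < p ↔ i.1 < q) := by simpa [lad] using h1
      have a := h3 p hp
      have b := h3 q hq
      have c := h3 (p - 1) (by omega)
      have d := h3 (q - 1) (by omega)
      omega
  · rintro (⟨rfl, h⟩ | ⟨rfl, rfl | rfl⟩)
    · refine ⟨none, h, ?_⟩
      rintro (_ | j) hj
      · exact absurd rfl hj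
      · rfl
    · refine ⟨some ⟨q, hq⟩, by simp [lad], ?_⟩
      rintro (_ | j) hj
      · rfl
      · have : j.1 ≠ q := by simpa [Fin.ext_iff] using hj
        simp [lad]; omega
    · refine ⟨some ⟨p, hp⟩, by simp [lad], ?_⟩
      rintro (_ | j) hj
      · rfl
      · have : j.1 ≠ p := by simpa [Fin.ext_iff] using hj
        simp [lad]; omega

theorem result : ¬ ∃ F : Set (Σ n : ℕ, SimpleGraph (Fin n)), F.Finite ∧
    ∀ (W : Type) [Finite W] (H : SimpleGraph W),
      IsIGraph H ↔ ∀ K ∈ F, IsEmpty (K.2 ↪g H) := by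
  classical
  rintro ⟨F, hF, h⟩
  obtain ⟨m, hm⟩ := (hF.image Sigma.fst).bddAbove
  set k := m + 3 with hk
  have h1 := mob_not k (by omega)
  rw [h] at h1
  push Not at h1
  obtain ⟨⟨n, K⟩, hK, ⟨φ⟩⟩ := h1
  have hn : n ≤ m := hm ⟨_, hK, rfl⟩
  obtain ⟨r, hr, hr'⟩ := Finset.exists_mem_notMem_of_card_lt_card
    (s := Finset.univ.image fun a : Fin n => if (φ a).1 < k then (φ a).1 else (φ a).1 - k)
    (t := Finset.range k) (Finset.card_image_le.trans_lt (by simp; omega))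
  simp only [Finset.mem_image, Finset.mem_univ, true_and, not_exists, Finset.mem_range] at hr hr'
  let t : Fin n → ℕ := fun a => if r ≤ (φ a).1 then (φ a).1 - r else (φ a).1 + 2 * k - r
  let p : Fin n → ℕ := fun a => if t a < k then t a else t a - k
  let s : Fin n → Bool := fun a => decide (t a < k)
  have hp : ∀ a, p a < k := fun a => by
    have := (φ a).2
    simp only [p, t]; split_ifs <;> omega
  have h2 := (h _ (iGraph (PM (Option (Fin k))))).1 ⟨_, inferInstance, _, ⟨SimpleGraph.Iso.refl⟩⟩ _ hK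
  refine h2.false ⟨⟨fun a => ⟨gr (lad k (p a) (s a)), gr_iset _⟩, ?_⟩, ?_⟩
  · intro a b hab
    have e : ∀ i, lad k (p a) (s a) i = lad k (p b) (s b) i := fun i => by
      have : (i, lad k (p a) (s a) i) ∈ gr (lad k (p b) (s b)) := by
        rw [← show gr (lad k (p a) (s a)) = gr (lad k (p b) (s b)) from congrArg Subtype.val hab]
        rfl
      exact this
    have e1 : t a < k ↔ t b < k := by simpa [lad, s] using e none
    have e2 := e (some ⟨p a, hp a⟩)
    have e3 := e (some ⟨p b, hp b⟩)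
    simp [lad] at e2 e3
    have e4 : p a = p b := by omega
    apply φ.injective
    apply Fin.ext
    have := (φ a).2
    have := (φ b).2
    simp only [p, t] at e1 e4
    split_ifs at e1 e4 <;> omega
  · intro a b
    simp only [Function.Embedding.coeFn_mk]
    rw [gr_adj, lad_adj k _ _ (hp a) (hp b), ← φ.map_adj_iff, mob_adj]
    have := (φ a).2
    have := (φ b).2
    have := hr' a
    have := hr' b
    simp only [s, p, t, ne_eq, decide_eq_decide]
    split_ifs at * <;> omega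

end Pool.Agent.Results.MP_540c93_co.NoFinite
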